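import Pool.Agent.Helper45.PL.Defs
import Pool.Agent.Helper59.TW.PX1
import Pool.Agent.Helper45.PD.Unr

/-!
# Project PL, block B3: places of a level, any prime `ℓ`
-/

set_option autoImplicit false
set_option linter.unusedSectionVars false

namespace Pool.Agent.PRL

open VC IntermediateField NumberField IsDedekindDomain Pool.Agent.SC
open Pool.Agent.L (L0 MM)
open Pool.Agent.LN (Geo)
open Pool.Agent.M (Moves OverPl inL0 moves_unique)
open Pool.Agent.ML (BPl)
open Pool.Agent.TOW (Au AuE FGL over59 conj59 below59 above59 auE59 moves_mul59 exists_im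
  inL59 rMM59 L0_le_MM)
open Pool.Agent.PDL (eig_root gal_L0)

section px

variable {E K0 U : Type} [Field E] [Field K0] [Field U] [Algebra E U] [Algebra K0 U]

/-- a level is generated over `L0` by finitely many elements -/
theorem fgl_of_ff59 {N : IntermediateField E U} (hF : IsFunctionField E N) : FGL E K0 N := by
  classical
  obtain ⟨t, ht, hfin⟩ := hF
  obtain ⟨s, hs⟩ := Module.Finite.fg_top (R := IntermediateField.adjoin E {t}) (M := N)
  refine ⟨insert (t : U) (s.image fun x : N => (x : U)), fun N' hLN hZN => ?_⟩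
  let C : IntermediateField E N := N'.comap N.val
  have hC : IntermediateField.adjoin E {t} ≤ C := by
    rw [IntermediateField.adjoin_le_iff, Set.singleton_subset_iff]
    exact hZN _ (Finset.mem_insert_self _ _)
  intro x hx
  have h1 : (⟨x, hx⟩ : N) ∈ Submodule.span (IntermediateField.adjoin E {t}) (s : Set N) := by
    rw [hs]
    trivial
  have h2 : ∀ y ∈ Submodule.span (IntermediateField.adjoin E {t}) (s : Set N), (y : U) ∈ N' := by
    intro y hy
    induction hy using Submodule.span_induction with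
    | mem y hy => exact hZN _ (Finset.mem_insert_of_mem (Finset.mem_image_of_mem _ hy))
    | zero => exact zero_mem _
    | add y z _ _ hy hz => exact add_mem hy hz
    | smul a y _ hy =>
      have h3 : ((a : N) : U) ∈ N' := hC a.2
      exact mul_mem h3 hy
  exact h2 _ h1

/-! ## The extension `M / L0` -/

/-- the elements of `M` -/
theorem exists_coeff59 {ℓ : ℕ} (hℓ : 0 < ℓ) {r : U} {h : K0} (hr : r ^ ℓ = algebraMap K0 U h)
    {z : U} (hz : z ∈ MM E K0 r) :
    ∃ c : ℕ → U, (∀ i, c i ∈ L0 E K0 (U := U)) ∧ z = ∑ i ∈ Finset.range ℓ, c i * r ^ i := by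
  classical
  have hint : IsIntegral (L0 E K0 (U := U)) r := by
    refine IsIntegral.of_pow hℓ ?_
    rw [hr]
    exact isIntegral_algebraMap (R := L0 E K0 (U := U)) (A := U) (x := ⟨_, inL59 h⟩)
  have h1 : MM E K0 r ≤ (IntermediateField.adjoin (L0 E K0 (U := U)) {r}).restrictScalars E := by
    refine IntermediateField.adjoin_le_iff.2 ?_
    rintro x (⟨c, rfl⟩ | hx)
    · exact (IntermediateField.adjoin (L0 E K0 (U := U)) {r}).algebraMap_mem
        (⟨_, inL59 c⟩ : L0 E K0 (U := U))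
    · rw [Set.mem_singleton_iff.1 hx]
      exact IntermediateField.mem_adjoin_simple_self _ r
  have h2 : z ∈ IntermediateField.adjoin (L0 E K0 (U := U)) {r} := h1 hz
  have h3 : z ∈ (IntermediateField.adjoin (L0 E K0 (U := U)) {r}).toSubalgebra := h2
  rw [IntermediateField.adjoin_simple_toSubalgebra_of_isAlgebraic hint.isAlgebraic,
    Algebra.adjoin_singleton_eq_range_aeval] at h3
  obtain ⟨p, hp⟩ := h3
  have hp' : Polynomial.aeval r p = z := hp
  let q : Polynomial (L0 E K0 (U := U)) := Polynomial.X ^ ℓ - Polynomial.C (⟨_, inL59 h⟩)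
  have hq : q.Monic := Polynomial.monic_X_pow_sub_C _ hℓ.ne'
  have hqr : Polynomial.aeval r q = 0 := by
    simp only [q, map_sub, map_pow, Polynomial.aeval_X, Polynomial.aeval_C]
    rw [hr]
    exact sub_self _
  have hdeg : (p %ₘ q).natDegree < ℓ := by
    have h4 : q.natDegree = ℓ := Polynomial.natDegree_X_pow_sub_C
    have h5 := Polynomial.natDegree_modByMonic_lt p hq (by
      intro h6
      rw [h6, Polynomial.natDegree_one] at h4
      omega)
    rwa [h4] at h5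
  refine ⟨fun i => ((p %ₘ q).coeff i : L0 E K0 (U := U)), fun i => ((p %ₘ q).coeff i).2, ?_⟩
  have h4 : Polynomial.aeval r (p %ₘ q) = z := by
    have h5 := Polynomial.modByMonic_add_div p q
    have h6 : Polynomial.aeval r (p %ₘ q + q * (p /ₘ q)) = z := by rw [h5, hp']
    rw [map_add, map_mul, hqr, zero_mul, add_zero] at h6
    exact h6
  rw [← h4, Polynomial.aeval_eq_sum_range' hdeg]
  refine Finset.sum_congr rfl fun i _ => ?_
  rw [Algebra.smul_def]
  rfl

/-- the valuations of the powers of `r` differ modulo those of `L0` -/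
theorem val_ne59 [IsAlgClosed E] (ff : IsFunctionField E (L0 E K0 (U := U))) {ℓ : ℕ}
    (hℓ : ℓ.Prime) {r : U} {h : K0} (hr : r ^ ℓ = algebraMap K0 U h) (hrn : r ≠ 0)
    {b : Place E (L0 E K0 (U := U))} (hb : BPl ℓ h b) {W : Place E U}
    (hW : ∀ (x : U) (hx : x ∈ L0 E K0 (U := U)), (⟨x, hx⟩ : L0 E K0 (U := U)) ∈ b.ring ↔ x ∈ W.ring)
    {i j : ℕ} (hi : i < ℓ) (hj : j < ℓ) (hij : i ≠ j) {x y : U} (hx : x ∈ L0 E K0 (U := U))
    (hy : y ∈ L0 E K0 (U := U)) (hx0 : x ≠ 0) (hy0 : y ≠ 0) :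
    W.ring.valuation (x * r ^ i) ≠ W.ring.valuation (y * r ^ j) := by
  intro heq
  obtain ⟨x', hx'⟩ : ∃ x' : L0 E K0 (U := U), (x' : U) = x := ⟨⟨x, hx⟩, rfl⟩
  obtain ⟨y', hy'⟩ : ∃ y' : L0 E K0 (U := U), (y' : U) = y := ⟨⟨y, hy⟩, rfl⟩
  have hx0' : x' ≠ 0 := by
    rintro rfl
    exact hx0 hx'.symm
  have hy0' : y' ≠ 0 := by
    rintro rfl
    exact hy0 hy'.symm
  have hh : ((inL0 h : L0 E K0 (U := U)) : U) = r ^ ℓ := hr.symm
  have hh0 : (inL0 h : L0 E K0 (U := U)) ≠ 0 := by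
    intro h0
    rw [h0] at hh
    exact pow_ne_zero ℓ hrn hh.symm
  have hn0 : x' ^ ℓ * inL0 h ^ i ≠ 0 := mul_ne_zero (pow_ne_zero _ hx0') (pow_ne_zero _ hh0)
  have hd0 : y' ^ ℓ * inL0 h ^ j ≠ 0 := mul_ne_zero (pow_ne_zero _ hy0') (pow_ne_zero _ hh0)
  have hu0 : (x' ^ ℓ * inL0 h ^ i) / (y' ^ ℓ * inL0 h ^ j) ≠ 0 := div_ne_zero hn0 hd0
  have hval : W.ring.valuation
      (((x' ^ ℓ * inL0 h ^ i) / (y' ^ ℓ * inL0 h ^ j) : L0 E K0 (U := U)) : U) = 1 := by
    have h1 : (((x' ^ ℓ * inL0 h ^ i) / (y' ^ ℓ * inL0 h ^ j) : L0 E K0 (U := U)) : U) =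
        ((x * r ^ i) / (y * r ^ j)) ^ ℓ := by
      rw [div_pow, mul_pow, mul_pow, ← pow_mul, ← pow_mul, mul_comm i, mul_comm j, pow_mul,
        pow_mul, ← hx', ← hy', ← hh]
      rfl
    rw [h1, map_pow, map_div₀, heq, div_self, one_pow]
    rw [Valuation.ne_zero_iff]
    exact mul_ne_zero hy0 (pow_ne_zero _ hrn)
  have h2 := ord_zero_of_val_unit (N := L0 E K0 (U := U)) ff b (B := W.ring)
    (fun z => (hW z z.2).symm) hu0 hval
  rw [FF.ord_div ff b hn0 hd0, FF.ord_mul ff b (pow_ne_zero _ hx0') (pow_ne_zero _ hh0),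
    FF.ord_mul ff b (pow_ne_zero _ hy0') (pow_ne_zero _ hh0), FF.ord_pow ff b hx0',
    FF.ord_pow ff b hy0', FF.ord_pow ff b hh0, FF.ord_pow ff b hh0] at h2
  have h3 : (ℓ : ℤ) ∣ ((i : ℤ) - j) * ord b.ring (inL0 h : L0 E K0 (U := U)) :=
    ⟨ord b.ring y' - ord b.ring x', by linear_combination h2⟩
  rcases (Nat.prime_iff_prime_int.1 hℓ).dvd_or_dvd h3 with h4 | h4
  · apply hij
    have h5 : |(i : ℤ) - j| < ℓ := by
      rw [abs_lt]
      constructor
      · have : (j : ℤ) < ℓ := by exact_mod_cast hj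
        have : (0 : ℤ) ≤ i := Int.natCast_nonneg i
        omega
      · have : (i : ℤ) < ℓ := by exact_mod_cast hi
        have : (0 : ℤ) ≤ j := Int.natCast_nonneg j
        omega
    have h6 := Int.eq_zero_of_abs_lt_dvd h4 h5
    have h7 : (i : ℤ) = j := by omega
    exact_mod_cast h7
  · exact hb h4

/-- the places over a branch point: no cancellation -/
theorem sum_mem59 [IsAlgClosed E] (ff : IsFunctionField E (L0 E K0 (U := U))) {ℓ : ℕ}
    (hℓ : ℓ.Prime) {r : U} {h : K0} (hr : r ^ ℓ = algebraMap K0 U h) (hrn : r ≠ 0)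
    {b : Place E (L0 E K0 (U := U))} (hb : BPl ℓ h b) {W : Place E U}
    (hW : ∀ (x : U) (hx : x ∈ L0 E K0 (U := U)), (⟨x, hx⟩ : L0 E K0 (U := U)) ∈ b.ring ↔ x ∈ W.ring)
    {c : ℕ → U} (hc : ∀ i, c i ∈ L0 E K0 (U := U)) :
    ∑ i ∈ Finset.range ℓ, c i * r ^ i ∈ W.ring ↔
      ∀ i ∈ Finset.range ℓ, c i ^ ℓ * (r ^ ℓ) ^ i ∈ W.ring := by
  classical
  have hpow : ∀ i, c i ^ ℓ * (r ^ ℓ) ^ i ∈ W.ring ↔ c i * r ^ i ∈ W.ring := by
    intro i
    have e : c i ^ ℓ * (r ^ ℓ) ^ i = (c i * r ^ i) ^ ℓ := by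
      rw [mul_pow, ← pow_mul, ← pow_mul, mul_comm i]
    rw [e, ← W.ring.valuation_le_one_iff, ← W.ring.valuation_le_one_iff, map_pow]
    constructor
    · intro h1
      by_contra hcon
      push Not at hcon
      exact absurd h1 (not_le.2 (one_lt_pow₀ hcon hℓ.ne_zero))
    · intro h1
      exact pow_le_one₀ zero_le h1
  have hpow' : (∀ i ∈ Finset.range ℓ, c i ^ ℓ * (r ^ ℓ) ^ i ∈ W.ring) ↔
      ∀ i ∈ Finset.range ℓ, c i * r ^ i ∈ W.ring :=
    forall₂_congr fun i _ => hpow i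
  rw [hpow']
  constructor
  · intro hsum
    by_contra hcon
    push Not at hcon
    obtain ⟨i₁, hi₁, h1⟩ := hcon
    obtain ⟨i₀, hi₀, hmax⟩ := Finset.exists_max_image (Finset.range ℓ)
      (fun i => W.ring.valuation (c i * r ^ i)) ⟨i₁, hi₁⟩
    have h2 : 1 < W.ring.valuation (c i₀ * r ^ i₀) := by
      refine lt_of_lt_of_le ?_ (hmax i₁ hi₁)
      rw [← not_le, W.ring.valuation_le_one_iff]
      exact h1
    have hne0 : W.ring.valuation (c i₀ * r ^ i₀) ≠ 0 := (zero_lt_one.trans h2).ne'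
    have hc0 : c i₀ ≠ 0 := by
      intro h0
      rw [h0, zero_mul, map_zero] at hne0
      exact hne0 rfl
    have h3 : W.ring.valuation (∑ i ∈ (Finset.range ℓ).erase i₀, c i * r ^ i) <
        W.ring.valuation (c i₀ * r ^ i₀) := by
      refine Valuation.map_sum_lt _ hne0 fun i hi => ?_
      obtain ⟨h4, h5⟩ := Finset.mem_erase.1 hi
      refine lt_of_le_of_ne (hmax i h5) ?_
      by_cases hci : c i = 0
      · rw [hci, zero_mul, map_zero]
        exact hne0.symm
      · exact val_ne59 ff hℓ hr hrn hb hW (Finset.mem_range.1 h5) (Finset.mem_range.1 hi₀) h4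
          (hc i) (hc i₀) hci hc0
    rw [← Finset.add_sum_erase _ _ hi₀] at hsum
    have h4 := Valuation.map_add_eq_of_lt_left _ h3
    rw [← W.ring.valuation_le_one_iff] at hsum
    rw [h4] at hsum
    exact absurd hsum (not_le.2 h2)
  · intro h1
    exact sum_mem h1

/-- there is only one place of `M` over a branch point -/
theorem uniqueL59 [IsAlgClosed E] (ff : IsFunctionField E (L0 E K0 (U := U))) {ℓ : ℕ}
    (hℓ : ℓ.Prime) {r : U} {h : K0} (hr : r ^ ℓ = algebraMap K0 U h) (hrn : r ≠ 0)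
    {b : Place E (L0 E K0 (U := U))} (hb : BPl ℓ h b) {W W' : Place E U}
    (hW : ∀ (x : U) (hx : x ∈ L0 E K0 (U := U)), (⟨x, hx⟩ : L0 E K0 (U := U)) ∈ b.ring ↔ x ∈ W.ring)
    (hW' : ∀ (x : U) (hx : x ∈ L0 E K0 (U := U)),
      (⟨x, hx⟩ : L0 E K0 (U := U)) ∈ b.ring ↔ x ∈ W'.ring)
    {z : U} (hz : z ∈ MM E K0 r) : z ∈ W.ring ↔ z ∈ W'.ring := by
  obtain ⟨c, hc, rfl⟩ := exists_coeff59 hℓ.pos hr hz
  rw [sum_mem59 ff hℓ hr hrn hb hW hc, sum_mem59 ff hℓ hr hrn hb hW' hc]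
  refine forall₂_congr fun i _ => ?_
  have h1 : c i ^ ℓ * (r ^ ℓ) ^ i ∈ L0 E K0 (U := U) := by
    rw [hr]
    exact mul_mem (pow_mem (hc i) _) (pow_mem (inL59 h) _)
  rw [← hW _ h1, ← hW' _ h1]

/-- some automorphism over `L0` moves `r` -/
theorem exists_zeta59 [IsAlgClosed E] [IsGalois (L0 E K0 (U := U)) U] {ℓ : ℕ} (hℓ : ℓ.Prime)
    {r : U} {h : K0} (hr : r ^ ℓ = algebraMap K0 U h) (hrn : r ≠ 0)
    (hr0 : r ∉ L0 E K0 (U := U)) :
    ∃ (T : U ≃+* U) (ζ : E), AuE E K0 T ∧ IsPrimitiveRoot ζ ℓ ∧ T r = algebraMap E U ζ * r := by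
  have h1 : ∃ σ : U ≃ₐ[L0 E K0 (U := U)] U, σ r ≠ r := by
    by_contra hcon
    push Not at hcon
    obtain ⟨z, hz⟩ := (InfiniteGalois.mem_range_algebraMap_iff_fixed r).2 hcon
    apply hr0
    rw [← hz]
    exact z.2
  obtain ⟨σ, hσ⟩ := h1
  have hE : AuE E K0 (σ.toRingEquiv : U ≃+* U) := auE59 fun x hx => σ.commutes ⟨x, hx⟩
  obtain ⟨ζ, hζ, h2⟩ := eig_root (E := E) hℓ.pos hrn (T := σ.toRingEquiv) (by
    rw [hr]
    exact hE.fixK _)
  refine ⟨σ.toRingEquiv, ζ, hE, ?_, h2⟩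
  have : Fact ℓ.Prime := ⟨hℓ⟩
  have h3 : orderOf ζ = ℓ := orderOf_eq_prime hζ fun h => hσ (by
    rw [h, map_one, one_mul] at h2
    exact h2)
  rw [← h3]
  exact IsPrimitiveRoot.orderOf ζ

/-- finitely many places over a place of `L0` -/
theorem finiteL59 [IsGalois (L0 E K0 (U := U)) U] {N : IntermediateField E U}
    (hLN : L0 E K0 (U := U) ≤ N) (hs : ∀ T : U ≃+* U, AuE E K0 T → ∀ x ∈ N, T x ∈ N)
    (hF : FGL E K0 N) (b : Place E (L0 E K0 (U := U))) :
    {Q : Place E N | OverPl b Q}.Finite := by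
  classical
  by_cases hne : ∃ Q0 : Place E N, OverPl b Q0
  · obtain ⟨Q0, hQ0⟩ := hne
    obtain ⟨Z, hZ⟩ := hF
    have hex : ∀ Q : {Q : Place E N | OverPl b Q},
        ∃ T : U ≃+* U, (∀ x ∈ L0 E K0 (U := U), T x = x) ∧ Moves T _ Q0 Q.1 := by
      intro Q
      refine conj59 (L := L0 E K0 (U := U)) hLN Q0 Q.1 (fun x hx => ?_)
      exact (hQ0 x hx (hLN hx)).symm.trans (Q.2 x hx (hLN hx))
    choose T hT1 hT2 using hex
    let R : Finset U := Z.biUnion fun z =>
      ((minpoly (L0 E K0 (U := U)) z).map (algebraMap (L0 E K0 (U := U)) U)).roots.toFinset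
    have hR : ∀ (Q : {Q : Place E N | OverPl b Q}), ∀ z ∈ Z, T Q z ∈ R := by
      intro Q z hz
      refine Finset.mem_biUnion.2 ⟨z, hz, ?_⟩
      have hint : IsIntegral (L0 E K0 (U := U)) z := Algebra.IsIntegral.isIntegral z
      rw [Multiset.mem_toFinset, Polynomial.mem_roots
        (Polynomial.map_ne_zero (minpoly.ne_zero hint)), Polynomial.IsRoot.def,
        Polynomial.eval_map_algebraMap]
      let τ : U →ₐ[L0 E K0 (U := U)] U :=
        { toRingHom := (T Q : U →+* U), commutes' := fun x => hT1 Q x x.2 }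
      have h1 : τ z = T Q z := rfl
      rw [← h1, Polynomial.aeval_algHom_apply, minpoly.aeval, map_zero]
    let g : {Q : Place E N | OverPl b Q} → (Z → R) :=
      fun Q z => ⟨T Q z, hR Q z z.2⟩
    have hg : Function.Injective g := by
      intro Q Q' hQQ
      apply Subtype.ext
      -- the automorphisms agree on the level
      let N' : IntermediateField E U :=
        { carrier := {x | T Q x = T Q' x}
          mul_mem' := fun {a b} ha hb => by
            show T Q (a * b) = T Q' (a * b)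
            rw [map_mul, map_mul]
            exact congrArg₂ (· * ·) ha hb
          add_mem' := fun {a b} ha hb => by
            show T Q (a + b) = T Q' (a + b)
            rw [map_add, map_add]
            exact congrArg₂ (· + ·) ha hb
          algebraMap_mem' := fun e => by
            show T Q (algebraMap E U e) = T Q' (algebraMap E U e)
            rw [hT1 Q _ ((L0 E K0 (U := U)).algebraMap_mem e),
              hT1 Q' _ ((L0 E K0 (U := U)).algebraMap_mem e)]
          inv_mem' := fun a ha => by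
            show T Q a⁻¹ = T Q' a⁻¹
            rw [map_inv₀, map_inv₀]
            exact congrArg _ ha }
      have hle : N ≤ N' := by
        refine hZ N' (fun x hx => ?_) (fun z hz => ?_)
        · show T Q x = T Q' x
          rw [hT1 Q x hx, hT1 Q' x hx]
        · have h1 := congrFun hQQ ⟨z, hz⟩
          exact congrArg Subtype.val h1
      have hE : AuE E K0 (T Q) := auE59 (hT1 Q)
      have hs' : ∀ x ∈ N, (T Q).symm x ∈ N := hs _ hE.inv
      have h2 : Moves (T Q) _ Q0 Q'.1 := by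
        intro x hx hx'
        have h3 : T Q x = T Q' x := hle hx
        have h4 := hT2 Q' x hx (by rw [← h3]; exact hx')
        have h5 : (⟨T Q x, hx'⟩ : N) = ⟨T Q' x, by rw [← h3]; exact hx'⟩ :=
          Subtype.ext h3
        rw [h5]
        exact h4
      exact moves_unique hs' (hT2 Q) h2
    have hfin : Finite {Q : Place E N | OverPl b Q} := Finite.of_injective g hg
    exact Set.toFinite _
  · have h1 : {Q : Place E N | OverPl b Q} = ∅ := by
      rw [Set.eq_empty_iff_forall_notMem]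
      exact fun P hP => hne ⟨P, hP⟩
    rw [h1]
    exact Set.finite_empty

/-- an automorphism over `M` which fixes a place of a level is trivial on it -/
theorem trivL59 [IsAlgClosed E] [CharZero E] {r : U} (hc : IsCover (MM E K0 r))
    {N : IntermediateField E U} (hMN : MM E K0 r ≤ N) (Q : Place E N) {T : U ≃+* U}
    (hs : ∀ x ∈ N, T x ∈ N) (hT : AuE E K0 T) (hTr : T r = r) (hQ : Moves T N Q Q) :
    ∀ z ∈ N, T z = z := by
  have hgal : IsGalois (MM E K0 r) U := hc.gal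
  let aMN : Algebra (MM E K0 r) N := (IntermediateField.inclusion hMN).toRingHom.toAlgebra
  have sMN : IsScalarTower (MM E K0 r) N U := IsScalarTower.of_algebraMap_eq fun x => rfl
  have hgN : IsGalois N U := IsGalois.tower_top_of_isGalois (MM E K0 r) N U
  obtain ⟨W, hW⟩ := over59 Q
  obtain ⟨σ, hσ⟩ := exists_conj_val (L := N) (W.ring.comap ((T : U ≃+* U) : U →+* U)) W.ring
    (fun c => by
      show T (c : U) ∈ W.ring ↔ (c : U) ∈ W.ring
      rw [← hW _ c.2, ← hW _ (hs _ c.2)]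
      exact (hQ _ c.2 (hs _ c.2)).symm)
  have h1 : ∀ z, T (σ.symm z) ∈ W.ring ↔ z ∈ W.ring := by
    intro z
    have h2 := hσ (σ.symm z)
    rw [AlgEquiv.apply_symm_apply] at h2
    exact h2.symm
  let τ : U ≃ₐ[MM E K0 r] U := AlgEquiv.ofRingEquiv (f := (σ.symm.toRingEquiv.trans T : U ≃+* U)) (by
    intro x
    change T (σ.symm (x : U)) = x
    have h2 : σ.symm (x : U) = x := σ.symm.commutes ⟨x, hMN x.2⟩
    rw [h2]
    exact hT.onMM hTr _ x.2)
  have hτ : ∀ z, τ z = T (σ.symm z) := fun z => rfl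
  have h3 : τ = 1 := eq_one_of_fix (MM E K0 r) hc τ W.algebraMap_mem W.ne_top
    fun z => by rw [hτ]; exact h1 z
  intro z hz
  have h4 : σ.symm z = z := σ.symm.commutes ⟨z, hz⟩
  have h5 : τ z = z := by rw [h3]; rfl
  rw [hτ, h4] at h5
  exact h5

end px

/-- **BLOCK B3.** -/
theorem pXL : StmtPXL := by
  intro k K0 E U _ _ _ _ _ _ _ _ _ _ _ _ ℓ h r hℓ G N hN hMN
  have hclE : IsAlgClosed E := G.clE
  have hcE : CharZero E := charZero_of_injective_algebraMap (algebraMap k E).injective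
  have hcU : CharZero U := charZero_of_injective_algebraMap (algebraMap k U).injective
  have hgal : IsGalois (L0 E K0 (U := U)) U := gal_L0 G.normal
  have hgalM : IsGalois (MM E K0 r) U := G.cover.gal
  have hr0 : r ∉ L0 E K0 (U := U) := by
    have h1 := G.rnot 1 one_pos hℓ.one_lt
    rwa [pow_one] at h1
  have hrn : r ≠ 0 := by
    rintro rfl
    exact hr0 (zero_mem _)
  have hLN : L0 E K0 (U := U) ≤ N := le_trans L0_le_MM hMN
  have hs : ∀ T : U ≃+* U, AuE E K0 T → ∀ x ∈ N, T x ∈ N := fun T hT =>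
    hN.stab T hT.fixK fun e => ⟨e, hT.fixE e⟩
  have hconj : ∀ b : Place E (L0 E K0 (U := U)), BPl ℓ h b → ∀ Q Q' : Place E N, OverPl b Q →
      OverPl b Q' → ∃ a : U ≃+* U, AuE E K0 a ∧ a r = r ∧ Moves a N Q Q' := by
    intro b hb Q Q' hQ hQ'
    obtain ⟨W, hW⟩ := over59 Q
    obtain ⟨W', hW'⟩ := over59 Q'
    obtain ⟨T, hT, hm⟩ := conj59 (L := MM E K0 r) hMN Q Q' (fun x hx => by
      rw [hW _ (hMN hx), hW' _ (hMN hx)]
      refine uniqueL59 G.ff hℓ G.rpow hrn hb (fun z hz => ?_) (fun z hz => ?_) hx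
      · exact (hQ z hz (hLN hz)).trans (hW z _)
      · exact (hQ' z hz (hLN hz)).trans (hW' z _))
    exact ⟨T, auE59 fun x hx => hT x (L0_le_MM hx), hT r rMM59, hm⟩
  refine ⟨fun T Q hT hTr hQ => trivL59 G.cover hMN Q (hs T hT) hT hTr hQ, fun b hb =>
    ⟨above59 hLN b, finiteL59 hLN hs (fgl_of_ff59 hN.ff) b, hconj b hb, fun Q hQ => ?_⟩⟩
  obtain ⟨T0, ζ, hT0, hζ, hT0r⟩ := exists_zeta59 (E := E) hℓ G.rpow hrn hr0
  obtain ⟨Q1, hQ1⟩ := exists_im (hs T0 hT0) (hs _ hT0.inv) (fun e => ⟨e, hT0.inv.fixE e⟩) Q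
  have hbQ1 : OverPl b Q1 := by
    intro x hx hx'
    have h2 : T0 x = x := hT0.onL0 x hx
    have h3 := hQ x hx hx'
    have h4 := hQ1 x hx' (hs T0 hT0 x hx')
    have h5 : (⟨T0 x, hs T0 hT0 x hx'⟩ : N) = ⟨x, hx'⟩ := Subtype.ext h2
    rw [h5] at h4
    exact h3.trans h4
  obtain ⟨T1, hT1, hT1r, hm⟩ := hconj b hb Q1 Q hbQ1 hQ
  refine ⟨T1 * T0, ζ, hT1.mul hT0, hζ, ?_, moves_mul59 (hs T0 hT0) hQ1 hm⟩
  show T1 (T0 r) = algebraMap E U ζ * r
  rw [hT0r, map_mul, hT1.fixE, hT1r]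

end Pool.Agent.PRL
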